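import Mathlib
import Pool.Agent.R510.SG.PartB
import Pool.Agent.R510.SG.Triv
import Pool.Agent.Helper292.ForceCH

/-!
Q2, negative answer: it is consistent with ZFC that for `h ≥* 1` the principles `S₁(Γ_h, Γ)` and
`S₁(Γ_1, Γ)` are equivalent only if `h n = 1` for all but finitely many `n`.

Under the continuum hypothesis one Hausdorff space, a Lusin set together with countably many points
which are common limits of pairs of basic open sets of the Baire space, satisfies `S₁(Γ_1, Γ)` and
fails `S₁(Γ_h, Γ)` for all `h` with `h n ≥ 2` infinitely often.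
-/

namespace Pool.Agent.Results.MP_74c39b_lc.GammaGamma

open Pool.Agent.R510.SG Filter

/-- (1) Some notion of forcing forces that `ω₁` is preserved and that the continuum hypothesis
holds. (2) The continuum hypothesis implies that there is a Hausdorff space which satisfies
`S₁(Γ_1, Γ)` and fails `S₁(Γ_h, Γ)` for all `h` with `h n ≥ 2` for infinitely many `n`.
(3) If `h n = 1` for all but finitely many `n`, then `S₁(Γ_h, Γ)` and `S₁(Γ_1, Γ)` hold for the
same spaces. -/
theorem result :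
    (∃ (P : Type) (_ : Preorder P), Nonempty P ∧ ∀ p : P,
      p ∈ Pool.Agent.Helper292.ForceCH.OmegaOnePreserved P ∧
      p ∈ Pool.Agent.Helper292.ForceCH.CHHolds P) ∧
    (Cardinal.aleph 1 = Cardinal.continuum.{0} →
      ∃ (X : Type) (_ : TopologicalSpace X), T2Space X ∧ S1G X (fun _ => 1) ∧
        ∀ h : ℕ → ℕ, (∃ᶠ n in atTop, 2 ≤ h n) → ¬ S1G X h) ∧
    ∀ h : ℕ → ℕ, (∀ᶠ n in atTop, h n = 1) →
      ∀ (X : Type) [TopologicalSpace X], S1G X h ↔ S1G X (fun _ => 1) := by
  refine ⟨?_, fun hCH => ?_, fun h hh X _ => ⟨?_, ?_⟩⟩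
  · obtain ⟨P, i, h1, h2⟩ := Pool.Agent.Helper292.ForceCH.exists_forcing
    exact ⟨P, i, h1, fun p => ⟨(h2 p).1, (h2 p).2.2⟩⟩
  · obtain ⟨Z, hZ1, hZ2⟩ := exists_lusin hCH.symm
    exact ⟨Sp Z, inferInstance, sp_t2 Z, S1G_one Z hZ2, fun h hh => not_S1G Z hZ1 hZ2 h hh⟩
  · exact S1G_congr hh X
  · exact S1G_congr (hh.mono fun n hn => hn.symm) X

end Pool.Agent.Results.MP_74c39b_lc.GammaGamma
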