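import Mathlib
import Pool.Agent.R510.SG.PartA
import Pool.Agent.Helper292.ForceCH

/-!
Q1, negative answer: it is consistent with ZFC that for every `g` there is a larger `g'`, diverging
to infinity, such that `S₁(Γ_g, O)` and `S₁(Γ_g', O)` are not equivalent, even for subspaces of the
Cantor space.

Under the continuum hypothesis the space is built by a recursion of length `ω₁`. It meets all
members of a family of compact sets `PP k p D` of subsets of `ℕ × ℕ`; a selector `d` is good for a
matrix of closed sets if none of these compact sets lies in all `C n (d n)`, and the key lemma,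
which rests on the compactness of the space of all sets with rows of bounded size, shows that there
are good selectors.
-/

namespace Pool.Agent.Results.MP_74c39b_lc.GammaOpen

open Pool.Agent.R510.SG Filter

/-- (1) Some notion of forcing forces that `ω₁` is preserved and that the continuum hypothesis
holds. (2) The continuum hypothesis implies that for every `g` there are `g' ≥ g` diverging to
infinity and a subspace `X` of the Cantor space which satisfies `S₁(Γ_g, O)` but not
`S₁(Γ_g', O)`. -/
theorem result :
    (∃ (P : Type) (_ : Preorder P), Nonempty P ∧ ∀ p : P,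
      p ∈ Pool.Agent.Helper292.ForceCH.OmegaOnePreserved P ∧
      p ∈ Pool.Agent.Helper292.ForceCH.CHHolds P) ∧
    (Cardinal.aleph 1 = Cardinal.continuum.{0} →
      ∀ g : ℕ → ℕ, ∃ g' : ℕ → ℕ, (∀ n, g n ≤ g' n) ∧ Tendsto g' atTop atTop ∧
        ∃ X : Set (ℕ × ℕ → Bool), S1O X g ∧ ¬ S1O X g') := by
  refine ⟨?_, fun hCH g => ?_⟩
  · obtain ⟨P, i, h1, h2⟩ := Pool.Agent.Helper292.ForceCH.exists_forcing
    exact ⟨P, i, h1, fun p => ⟨(h2 p).1, (h2 p).2.2⟩⟩
  · obtain ⟨g', h1, h2, h3⟩ := exists_growth g
    refine ⟨g', h1, ?_, exists_space hCH.symm h3 fun a => ?_⟩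
    · exact tendsto_atTop_mono (fun n => le_trans (Nat.le_succ n) (h2 n)) tendsto_id
    · have := h2 a
      omega

end Pool.Agent.Results.MP_74c39b_lc.GammaOpen
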